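import Pool.Agent.KS6_1.RF.LieQ3

set_option autoImplicit false

namespace Pool.Agent.Results.MP_48d723_al.EveryFiniteFieldCharTwo

/-- The Lie algebra `L` belongs to the product `UV`, where `U` is the variety defined by the
identities in `A` and `V` the variety defined by the identities in `B`: there is an ideal `I`
of `L` satisfying all identities of `A`, with `L / I` satisfying all identities of `B`. -/
def InProduct (F : Type) [Field F] (A B : Finset (FreeLieAlgebra F ℕ)) (L : Type) [LieRing L]
    [LieAlgebra F L] : Prop :=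
  ∃ I : LieIdeal F L,
    (∀ a ∈ A, ∀ φ : ℕ → I, FreeLieAlgebra.lift F φ a = 0) ∧
    (∀ b ∈ B, ∀ φ : ℕ → L ⧸ I, FreeLieAlgebra.lift F φ b = 0)

/-- Over EVERY finite field `F` of characteristic two there is a variety `V` of Lie algebras
defined by a single identity `g` such that the product of the variety of abelian Lie algebras
(defined by `[x₀, x₁] = 0`) with `V` cannot be defined by finitely many identities. -/
theorem result (F : Type) [Field F] [Finite F] [CharP F 2] :
    ∃ g : FreeLieAlgebra F ℕ, ∀ C : Finset (FreeLieAlgebra F ℕ),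
      ∃ (L : Type) (_ : LieRing L) (_ : LieAlgebra F L),
        ¬ (InProduct F {⁅FreeLieAlgebra.of F 0, FreeLieAlgebra.of F 1⁆} {g} L ↔
            ∀ c ∈ C, ∀ φ : ℕ → L, FreeLieAlgebra.lift F φ c = 0) := by
  have := Fintype.ofFinite F
  obtain ⟨n, -, hn⟩ := FiniteField.card F 2
  obtain ⟨e, he⟩ : ∃ e, (n : ℕ) = e + 1 := ⟨n - 1, by have := n.pos; omega⟩
  have hF : Pool.Agent.KS6_1.LieQ.FixQ e F := fun c => by
    have := FiniteField.pow_card c
    rwa [hn, he] at this
  exact ⟨Pool.Agent.KS6_1.LieQ.gw F (Pool.Agent.KS6_1.LieQ.QQ e),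
    Pool.Agent.KS6_1.LieQ.main e hF⟩

end Pool.Agent.Results.MP_48d723_al.EveryFiniteFieldCharTwo
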